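import Pool.Agent.H17.GZ.GauA

/-!
# The Gaussian integral (GAU)
-/

set_option autoImplicit false

open MeasureTheory Pool.Agent.H34.GM Pool.Agent.H34.GZ

namespace Pool.Agent.H17.GZ

lemma gau_mp (hC : T_CFB) {m : ℕ} (k : ℕ) (hk : k < m) :
    MeasurePreserving (fun p : V m × EuclideanSpace ℝ (Fin m) => rc (⟨k, hk⟩ : Fin m) p.1 p.2)
      ((volume.restrict (aa m k)).prod volume) (volume.restrict (aa m (k + 1))) := by
  have h1 := (hC m ⟨k, hk⟩).restrict_preimage (aa_meas m (k + 1))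
  have h2 : (fun p : V m × EuclideanSpace ℝ (Fin m) => rc (⟨k, hk⟩ : Fin m) p.1 p.2) ⁻¹'
      aa m (k + 1) = aa m (k + 1) ×ˢ Set.univ := by
    ext p
    simp only [Set.mem_preimage, Set.mem_prod, Set.mem_univ, and_true]
    have h3 : ∀ j : Fin m, k + 1 ≤ (j : ℕ) → ∀ i,
        rc (⟨k, hk⟩ : Fin m) p.1 p.2 i j = p.1 i j := by
      intro j hj i
      unfold rc
      rw [if_neg]
      rintro rfl
      simp at hj
    constructor
    · intro h j hj i
      rw [← h3 j hj i]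
      exact h j hj i
    · intro h j hj i
      rw [h3 j hj i]
      exact h j hj i
  rw [h2, ← Measure.prod_restrict, Measure.restrict_univ,
    Measure.restrict_restrict (aa_meas m (k + 1))] at h1
  have h4 : aa m (k + 1) ∩ {z : V m | ∀ i, z i (⟨k, hk⟩ : Fin m) ∈ Set.Icc (0 : ℝ) 1} =
      aa m k := by
    ext z
    constructor
    · rintro ⟨h5, h6⟩ j hj i
      rcases Nat.eq_or_lt_of_le hj with h7 | h7
      · have h8 : j = ⟨k, hk⟩ := Fin.ext h7.symm
        rw [h8]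
        exact h6 i
      · exact h5 j h7 i
    · intro h
      exact ⟨fun j hj i => h j (by omega) i, fun i => h ⟨k, hk⟩ le_rfl i⟩
  rw [h4] at h1
  exact h1

lemma ff_rc (hG : T_GSM) {m : ℕ} (κ : Fin m → ℂ) (k : ℕ) (hk : k < m) (z : V m)
    (c : EuclideanSpace ℝ (Fin m)) :
    ff κ (k + 1) (rc (⟨k, hk⟩ : Fin m) z c) = ff κ k z *
      (((‖c - (Submodule.span ℝ (col (mt z) '' Set.Iio (⟨k, hk⟩ : Fin m))).starProjection c‖ : ℝ)
        : ℂ) ^ (κ ⟨k, hk⟩ - ((m : ℂ) - (k : ℕ))) *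
        ((Real.exp (-Real.pi * ‖c‖ ^ 2) : ℝ) : ℂ)) := by
  unfold ff
  rw [gau_prod _ k hk]
  congr 1
  · refine Finset.prod_congr rfl fun j _ => ?_
    by_cases h : (j : ℕ) < k
    · rw [if_pos h, if_pos h]
      unfold gf
      have hj : j < (⟨k, hk⟩ : Fin m) := h
      rw [gau_oc_lt hG _ _ hj, gau_col, if_neg hj.ne]
    · rw [if_neg h, if_neg h]
  · unfold gf
    rw [gau_oc_eq hG, gau_col, if_pos rfl]

lemma gau_step (hG : T_GSM) (hC : T_CFB) {m : ℕ} (κ : Fin m → ℂ) (k : ℕ) (hk : k < m) (D : ℂ)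
    (hD : D ≠ 0)
    (hGk : ∀ W : Submodule ℝ (EuclideanSpace ℝ (Fin m)), Module.finrank ℝ W = k →
      ∫ v : EuclideanSpace ℝ (Fin m), ((‖v - W.starProjection v‖ : ℝ) : ℂ) ^
      (κ ⟨k, hk⟩ - ((m : ℂ) - (k : ℕ))) * ((Real.exp (-Real.pi * ‖v‖ ^ 2) : ℝ) : ℂ) = D)
    (hI : IntegrableOn (ff κ (k + 1)) (aa m (k + 1))) :
    IntegrableOn (ff κ k) (aa m k) ∧
      ∫ z in aa m (k + 1), ff κ (k + 1) z = (∫ z in aa m k, ff κ k z) * D := by
  have hR := gau_mp hC k hk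
  have h1 : Integrable (fun p : V m × EuclideanSpace ℝ (Fin m) =>
      ff κ (k + 1) (rc (⟨k, hk⟩ : Fin m) p.1 p.2)) ((volume.restrict (aa m k)).prod volume) :=
    (hR.integrable_comp hI.aestronglyMeasurable).2 hI
  have h2 : ∫ z in aa m (k + 1), ff κ (k + 1) z =
      ∫ z in aa m k, ∫ c, ff κ (k + 1) (rc (⟨k, hk⟩ : Fin m) z c) := by
    have h3 := integral_map (μ := (volume.restrict (aa m k)).prod volume)
      hR.measurable.aemeasurable (f := ff κ (k + 1)) (by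
        rw [hR.map_eq]
        exact hI.aestronglyMeasurable)
    rw [hR.map_eq] at h3
    rw [h3, integral_prod _ h1]
  have h4 : ∀ᵐ z ∂(volume.restrict (aa m k)),
      ∫ c, ff κ (k + 1) (rc (⟨k, hk⟩ : Fin m) z c) = ff κ k z * D := by
    filter_upwards [ae_restrict_of_ae (gau_null m)] with z hz
    have h5 := (hG m (mt z)).2.2.2.2.2.2 hz ⟨k, hk⟩
    rw [← hGk _ h5, ← integral_const_mul]
    exact integral_congr_ae (Filter.Eventually.of_forall fun c => ff_rc hG κ k hk z c)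
  have h6 := h1.integral_prod_left
  have h7 : Integrable (fun z => ff κ k z * D) (volume.restrict (aa m k)) :=
    h6.congr h4
  refine ⟨?_, ?_⟩
  · have h8 := h7.mul_const D⁻¹
    refine h8.congr (Filter.Eventually.of_forall fun z => ?_)
    show ff κ k z * D * D⁻¹ = ff κ k z
    rw [mul_assoc, mul_inv_cancel₀ hD, mul_one]
  · rw [h2, integral_congr_ae h4, integral_mul_const]

lemma gau_iter (hG : T_GSM) (hC : T_CFB) {m : ℕ} (κ : Fin m → ℂ) (D : Fin m → ℂ)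
    (hD : ∀ j, D j ≠ 0)
    (hGk : ∀ j : Fin m, ∀ W : Submodule ℝ (EuclideanSpace ℝ (Fin m)),
      Module.finrank ℝ W = (j : ℕ) →
      ∫ v : EuclideanSpace ℝ (Fin m), ((‖v - W.starProjection v‖ : ℝ) : ℂ) ^
      (κ j - ((m : ℂ) - (j : ℕ))) * ((Real.exp (-Real.pi * ‖v‖ ^ 2) : ℝ) : ℂ) = D j) :
    ∀ k : ℕ, k ≤ m → IntegrableOn (ff κ k) (aa m k) →
      ∫ z in aa m k, ff κ k z = ∏ j : Fin m, if (j : ℕ) < k then D j else 1
  | 0, _, _ => by
      have h1 : ∀ z : V m, ff κ 0 z = 1 := fun z => by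
        unfold ff
        simp
      simp only [h1]
      rw [setIntegral_const]
      simp [Measure.real, aa_zero]
  | k + 1, hk, hI => by
      have hk' : k < m := hk
      obtain ⟨h1, h2⟩ := gau_step hG hC κ k hk' (D ⟨k, hk'⟩) (hD _) (hGk ⟨k, hk'⟩) hI
      rw [h2, gau_iter hG hC κ D hD hGk k (by omega) h1, gau_prod _ k hk']

lemma gau_exp (N : ℝ) : ∃ K : ℝ, 0 < K ∧ ∀ s S : ℝ, 0 ≤ s → s ^ 2 ≤ S →
    Real.exp (-Real.pi * S) ≤ K * (1 + s) ^ (-N) := by
  refine ⟨(⌈N⌉₊.factorial : ℝ) * Real.exp 2, by positivity, fun s S hs hS => ?_⟩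
  have h1 : (0 : ℝ) < 1 + s := by linarith
  have h2 : (1 + s) ^ N ≤ (⌈N⌉₊.factorial : ℝ) * Real.exp (1 + s) := by
    calc (1 + s) ^ N ≤ (1 + s) ^ ((⌈N⌉₊ : ℕ) : ℝ) :=
          Real.rpow_le_rpow_of_exponent_le (by linarith) (Nat.le_ceil N)
      _ = (1 + s) ^ ⌈N⌉₊ := Real.rpow_natCast _ _
      _ ≤ _ := by
          have := Real.pow_div_factorial_le_exp (1 + s) h1.le ⌈N⌉₊
          rw [div_le_iff₀ (by positivity)] at this
          linarith
  have h3 : Real.exp (1 + s) * Real.exp (-Real.pi * S) ≤ Real.exp 2 := by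
    rw [← Real.exp_add]
    apply Real.exp_le_exp.2
    have hp := Real.pi_gt_three
    nlinarith [sq_nonneg (s - 1 / 2), mul_le_mul_of_nonneg_left hS Real.pi_pos.le]
  have h4 : (1 + s) ^ N * (1 + s) ^ (-N) = 1 := by
    rw [← Real.rpow_add h1]
    simp
  have h5 : 0 < (1 + s) ^ (-N) := Real.rpow_pos_of_pos h1 _
  calc Real.exp (-Real.pi * S)
      = ((1 + s) ^ N * Real.exp (-Real.pi * S)) * (1 + s) ^ (-N) := by
        rw [mul_assoc, mul_comm (Real.exp _), ← mul_assoc, h4, one_mul]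
    _ ≤ ((⌈N⌉₊.factorial : ℝ) * Real.exp (1 + s) * Real.exp (-Real.pi * S)) *
          (1 + s) ^ (-N) := by
        refine mul_le_mul_of_nonneg_right ?_ h5.le
        exact mul_le_mul_of_nonneg_right h2 (Real.exp_pos _).le
    _ = ((⌈N⌉₊.factorial : ℝ) * (Real.exp (1 + s) * Real.exp (-Real.pi * S))) *
          (1 + s) ^ (-N) := by ring
    _ ≤ _ := by
        refine mul_le_mul_of_nonneg_right ?_ h5.le
        exact mul_le_mul_of_nonneg_left h3 (by positivity)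

lemma gau_colsq {m : ℕ} (z : V m) (j : Fin m) : ‖col (mt z) j‖ ^ 2 = ∑ i, z i j ^ 2 := by
  rw [EuclideanSpace.norm_sq_eq]
  refine Finset.sum_congr rfl fun i _ => ?_
  simp [col]

lemma gau_sz {m : ℕ} (z : V m) : sz (mt z) ^ 2 ≤ ∑ j, ‖col (mt z) j‖ ^ 2 := by
  have h0 : 0 ≤ ∑ j, ‖col (mt z) j‖ ^ 2 := Finset.sum_nonneg fun _ _ => sq_nonneg _
  have h1 : sz (mt z) ≤ Real.sqrt (∑ j, ‖col (mt z) j‖ ^ 2) := by
    unfold sz
    refine (pi_norm_le_iff_of_nonneg (Real.sqrt_nonneg _)).2 fun i =>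
      (pi_norm_le_iff_of_nonneg (Real.sqrt_nonneg _)).2 fun j => ?_
    apply Real.le_sqrt_of_sq_le
    calc ‖(mt z) i j‖ ^ 2 = z i j ^ 2 := by simp
      _ ≤ ∑ i, z i j ^ 2 := Finset.single_le_sum (f := fun i => z i j ^ 2)
          (fun _ _ => sq_nonneg _) (Finset.mem_univ i)
      _ = ‖col (mt z) j‖ ^ 2 := (gau_colsq z j).symm
      _ ≤ _ := Finset.single_le_sum (f := fun j => ‖col (mt z) j‖ ^ 2)
          (fun _ _ => sq_nonneg _) (Finset.mem_univ j)
  calc sz (mt z) ^ 2 ≤ Real.sqrt (∑ j, ‖col (mt z) j‖ ^ 2) ^ 2 :=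
        pow_le_pow_left₀ (norm_nonneg _) h1 2
    _ = _ := Real.sq_sqrt h0

lemma gf_meas (hS : T_SCP) {m : ℕ} (κ : Fin m → ℂ) (j : Fin m) : Measurable (gf κ j) := by
  unfold gf
  have h1 : Measurable fun z : V m => oc (mt z) j :=
    (hS m 1 (fun _ => one_pos)).2.2.2.2.2.2 j
  have h2 : Continuous fun z : V m => Real.exp (-Real.pi * ‖col (mt z) j‖ ^ 2) := by
    simp only [gau_colsq]
    fun_prop
  exact ((Complex.measurable_ofReal.comp h1.norm).pow_const _).mul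
    (Complex.measurable_ofReal.comp h2.measurable)

lemma ff_last {m : ℕ} (κ : Fin m → ℂ) (z : V m) : ff κ m z = ∏ j, gf κ j z := by
  unfold ff
  exact Finset.prod_congr rfl fun j _ => if_pos j.2

lemma gau_int (hG : T_GSM) (hS : T_SCP) (hCOL : T_COL) {m : ℕ} (hm1 : 1 ≤ m) (κ : Fin m → ℂ)
    (hκ : ∀ j, 0 < (κ j).re) : Integrable (ff κ m) := by
  have : Nonempty (Fin m) := ⟨⟨0, hm1⟩⟩
  obtain ⟨j0, hj0⟩ := Finite.exists_min fun j => (κ j).re
  obtain ⟨β, hβ⟩ : ∃ β : Fin m → ℝ, β = fun j => (κ j).re - ((m : ℝ) - (j : ℕ)) := ⟨_, rfl⟩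
  obtain ⟨B, hB⟩ : ∃ B : ℝ, B = ∑ j, |β j| := ⟨_, rfl⟩
  have hB0 : 0 ≤ B := hB ▸ Finset.sum_nonneg fun _ _ => abs_nonneg _
  obtain ⟨C, hC0, hC⟩ := hCOL m hm1 (κ j0).re B (hκ j0) hB0
  have h1 := hC β fun j => by
    refine ⟨?_, ?_⟩
    · rw [hβ]
      have := hj0 j
      simp only
      linarith
    · rw [hB]
      exact (le_abs_self _).trans (Finset.single_le_sum (f := fun j => |β j|)
        (fun _ _ => abs_nonneg _) (Finset.mem_univ j))
  obtain ⟨K, hK0, hK⟩ := gau_exp ((m : ℝ) * (B + m + 1))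
  have hmeas : Measurable (ff κ m) := by
    have : ff κ m = fun z => ∏ j, gf κ j z := by
      funext z
      exact ff_last κ z
    rw [this]
    exact Finset.measurable_prod _ fun j _ => gf_meas hS κ j
  refine ⟨hmeas.aestronglyMeasurable, ?_⟩
  rw [hasFiniteIntegral_iff_norm]
  refine lt_of_le_of_lt (b := ENNReal.ofReal K * ENNReal.ofReal C) ?_
    (ENNReal.mul_lt_top ENNReal.ofReal_lt_top ENNReal.ofReal_lt_top)
  refine le_trans ?_ (mul_le_mul' le_rfl h1)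
  rw [← lintegral_const_mul' _ _ ENNReal.ofReal_ne_top]
  refine lintegral_mono_ae ?_
  filter_upwards [gau_null m] with z hz
  rw [← ENNReal.ofReal_mul hK0.le]
  apply ENNReal.ofReal_le_ofReal
  have hpos := (hG m (mt z)).2.2.2.1 hz
  have e1 : ∀ j, ‖gf κ j z‖ = ‖oc (mt z) j‖ ^ β j *
      Real.exp (-Real.pi * ‖col (mt z) j‖ ^ 2) := by
    intro j
    unfold gf
    rw [norm_mul, Complex.norm_cpow_eq_rpow_re_of_pos (hpos j), Complex.norm_real,
      Real.norm_of_nonneg (Real.exp_pos _).le, hβ]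
    simp
  have hp0 : 0 ≤ ∏ j, ‖oc (mt z) j‖ ^ β j :=
    Finset.prod_nonneg fun j _ => Real.rpow_nonneg (norm_nonneg _) _
  rw [ff_last, norm_prod, Finset.prod_congr rfl fun j _ => e1 j, Finset.prod_mul_distrib,
    ← Real.exp_sum, ← Finset.mul_sum]
  calc (∏ j, ‖oc (mt z) j‖ ^ β j) * Real.exp (-Real.pi * ∑ j, ‖col (mt z) j‖ ^ 2)
      ≤ (∏ j, ‖oc (mt z) j‖ ^ β j) *
        (K * (1 + sz (mt z)) ^ (-((m : ℝ) * (B + m + 1)))) :=
        mul_le_mul_of_nonneg_left (hK _ _ (norm_nonneg _) (gau_sz z)) hp0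
    _ = _ := by ring

lemma gau_cpow {m : ℕ} (x : Fin m → ℝ) (hx : ∀ j, 0 ≤ x j) (w : ℂ) :
    (((∏ j, x j : ℝ)) : ℂ) ^ w = ∏ j, ((x j : ℝ) : ℂ) ^ w := by
  have : ∀ s : Finset (Fin m), (((∏ j ∈ s, x j : ℝ)) : ℂ) ^ w = ∏ j ∈ s, ((x j : ℝ) : ℂ) ^ w := by
    intro s
    induction s using Finset.induction_on with
    | empty => simp
    | insert a s ha ih =>
      rw [Finset.prod_insert ha, Finset.prod_insert ha, ← ih, Complex.ofReal_mul,
        Complex.mul_cpow_ofReal_nonneg (hx a) (Finset.prod_nonneg fun j _ => hx j)]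
  exact this Finset.univ

theorem pf_GAU (hG : T_GSM) (hP : T_PWF) (hC : T_CFB) (hGA : T_GA1) (hCOL : T_COL)
    (hS : T_SCP) : T_GAU := by
  intro m hm1
  have hc : ∀ j : Fin m, ∃ c : ℂ, c ≠ 0 ∧
      ∀ W : Submodule ℝ (EuclideanSpace ℝ (Fin m)), Module.finrank ℝ W = (j : ℕ) →
        ∀ κ : ℂ, 0 < κ.re →
        ∫ v : EuclideanSpace ℝ (Fin m), ((‖v - W.starProjection v‖ : ℝ) : ℂ) ^
          (κ - ((m : ℂ) - (j : ℕ))) * ((Real.exp (-Real.pi * ‖v‖ ^ 2) : ℝ) : ℂ) =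
          c * ((Real.pi : ℂ) ^ (-κ / 2) * Complex.Gamma (κ / 2)) := by
    intro j
    obtain ⟨c, h1, h2⟩ := hGA m (j : ℕ) j.2
    exact ⟨c, h1, fun W hW κ hκ => (h2 W hW κ hκ).2⟩
  choose c hc0 hc using hc
  refine ⟨∏ j, c j, Finset.prod_ne_zero_iff.2 fun j _ => hc0 j, fun mu s hs => ?_⟩
  obtain ⟨κ, hκ⟩ : ∃ κ : Fin m → ℂ, κ = fun j => s - mu j := ⟨_, rfl⟩
  have hκ0 : ∀ j, 0 < (κ j).re := fun j => by
    rw [hκ]
    simpa using hs j
  have hpi : (Real.pi : ℂ) ≠ 0 := by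
    exact_mod_cast Real.pi_ne_zero
  have h1 := gau_iter hG hC κ
    (fun j => c j * ((Real.pi : ℂ) ^ (-κ j / 2) * Complex.Gamma (κ j / 2)))
    (fun j => mul_ne_zero (hc0 j) (mul_ne_zero
      (by rw [Complex.cpow_def_of_ne_zero hpi]; exact Complex.exp_ne_zero _)
      (Complex.Gamma_ne_zero_of_re_pos (by
        rw [Complex.div_ofNat_re]
        exact div_pos (hκ0 j) (by norm_num)))))
    (fun j W hW => hc j W hW (κ j) (hκ0 j)) m le_rfl (gau_int hG hS hCOL hm1 κ hκ0).integrableOn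
  rw [aa_last, setIntegral_univ, Finset.prod_congr rfl fun (j : Fin m) _ =>
    if_pos j.2, Finset.prod_mul_distrib] at h1
  have h2 : ∫ z, ((Real.exp (-Real.pi * fr (mt z)) : ℝ) : ℂ) *
      ((|(mt z).det| : ℝ) : ℂ) ^ (s + ((m : ℂ) - 1) / 2) * pw mu (mt z) ∂(hm m) =
      ∫ z, ff κ m z := by
    unfold hm
    rw [integral_withDensity_eq_integral_toReal_smul]
    · refine integral_congr_ae ?_
      filter_upwards [gau_null m] with z hz
      have hpos := (hG m (mt z)).2.2.2.1 hz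
      have hdet := (hG m (mt z)).2.2.1
      have hd0 : ((|(mt z).det| : ℝ) : ℂ) ≠ 0 := by
        exact_mod_cast (abs_pos.2 hz).ne'
      have e1 : (ENNReal.ofReal ((|(mt z).det| ^ m)⁻¹)).toReal = (|(mt z).det| ^ m)⁻¹ :=
        ENNReal.toReal_ofReal (by positivity)
      have e2 : (((|(mt z).det| ^ m)⁻¹ : ℝ) : ℂ) = ((|(mt z).det| : ℝ) : ℂ) ^ (-(m : ℂ)) := by
        rw [Complex.cpow_neg, Complex.cpow_natCast]
        push_cast
        rfl
      have e3 : Real.exp (-Real.pi * fr (mt z)) =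
          ∏ j, Real.exp (-Real.pi * ‖col (mt z) j‖ ^ 2) := by
        rw [← Real.exp_sum, ← Finset.mul_sum]
        congr 2
        unfold fr
        rw [Finset.sum_comm]
        exact Finset.sum_congr rfl fun j _ => (gau_colsq z j).symm
      rw [e1, Complex.real_smul, e2, ff_last, (hP m mu (mt z) hz).1]
      have e4 : ((|(mt z).det| : ℝ) : ℂ) ^ (-(m : ℂ)) *
          ((|(mt z).det| : ℝ) : ℂ) ^ (s + ((m : ℂ) - 1) / 2) =
          ∏ j, ((‖oc (mt z) j‖ : ℝ) : ℂ) ^ (-(m : ℂ) + (s + ((m : ℂ) - 1) / 2)) := by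
        rw [← Complex.cpow_add _ _ hd0, hdet, gau_cpow _ fun j => norm_nonneg _]
      calc ((|(mt z).det| : ℝ) : ℂ) ^ (-(m : ℂ)) *
            (((Real.exp (-Real.pi * fr (mt z)) : ℝ) : ℂ) *
              ((|(mt z).det| : ℝ) : ℂ) ^ (s + ((m : ℂ) - 1) / 2) *
              ∏ j, ((‖oc (mt z) j‖ : ℝ) : ℂ) ^
                (-(mu j) + (2 * ((j : ℕ) + 1 : ℂ) - m - 1) / 2))
          = (((|(mt z).det| : ℝ) : ℂ) ^ (-(m : ℂ)) *
              ((|(mt z).det| : ℝ) : ℂ) ^ (s + ((m : ℂ) - 1) / 2)) *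
              (∏ j, ((‖oc (mt z) j‖ : ℝ) : ℂ) ^
                (-(mu j) + (2 * ((j : ℕ) + 1 : ℂ) - m - 1) / 2)) *
              ((Real.exp (-Real.pi * fr (mt z)) : ℝ) : ℂ) := by ring
        _ = ∏ j, gf κ j z := by
            rw [e4, e3, Complex.ofReal_prod, ← Finset.prod_mul_distrib,
              ← Finset.prod_mul_distrib]
            refine Finset.prod_congr rfl fun j _ => ?_
            unfold gf
            congr 1
            rw [← Complex.cpow_add _ _ (by exact_mod_cast (hpos j).ne')]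
            congr 1
            rw [hκ]
            ring
    · exact ENNReal.measurable_ofReal.comp
        (((gau_cont m).measurable.abs.pow_const m).inv)
    · exact Filter.Eventually.of_forall fun _ => ENNReal.ofReal_lt_top
  rw [h2, h1, hκ]

end Pool.Agent.H17.GZ
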