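import Pool.Agent.H23.GZ.Targets5

/-!
# Differences of a rapidly decreasing function (RPS)
-/

set_option autoImplicit false

open Pool.Agent.H34.GM Pool.Agent.H34.GZ

namespace Pool.Agent.H17.GZ

lemma rps_one {m : ℕ} (hS : T_SCP) (ρ : Fin m → ℝ) (hρ : ∀ j, 1 ≤ ρ j) (N : ℕ) (z : Mat m) :
    (1 + sz (sc ρ z)) ^ (-(N : ℝ)) ≤ ((m : ℝ) + 1) ^ N * (1 + sz z) ^ (-(N : ℝ)) := by
  have h0 : 0 ≤ sz z := norm_nonneg _
  have h1 : 0 ≤ sz (sc ρ z) := norm_nonneg _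
  have h2 := (hS m ρ (fun j => by linarith [hρ j])).2.2.2.2.1 hρ z
  have hm : (0 : ℝ) ≤ m := Nat.cast_nonneg m
  have h3 : (1 + sz z) ≤ ((m : ℝ) + 1) * (1 + sz (sc ρ z)) := by nlinarith
  have h4 : (((m : ℝ) + 1) * (1 + sz (sc ρ z))) ^ (-(N : ℝ)) ≤ (1 + sz z) ^ (-(N : ℝ)) :=
    Real.rpow_le_rpow_of_nonpos (by linarith) h3 (by simp)
  rw [Real.mul_rpow (by linarith) (by linarith), Real.rpow_neg (by linarith),
    Real.rpow_natCast] at h4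
  have h5 : (0 : ℝ) < ((m : ℝ) + 1) ^ N := by positivity
  calc (1 + sz (sc ρ z)) ^ (-(N : ℝ))
      = ((m : ℝ) + 1) ^ N * ((((m : ℝ) + 1) ^ N)⁻¹ * (1 + sz (sc ρ z)) ^ (-(N : ℝ))) := by
        rw [← mul_assoc, mul_inv_cancel₀ h5.ne', one_mul]
    _ ≤ _ := mul_le_mul_of_nonneg_left h4 h5.le

theorem pf_RPS (hS : T_SCP) : T_RPS := by
  intro m K N
  refine ⟨((∑ n ∈ nK K, ‖cK K 1 n‖) + 1) * ((m : ℝ) + 1) ^ N, ?_, ?_⟩
  · have : 0 ≤ ∑ n ∈ nK K, ‖cK K 1 n‖ := Finset.sum_nonneg fun _ _ => norm_nonneg _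
    positivity
  intro f M hM hf z
  have h0 : 0 ≤ sz z := norm_nonneg _
  have hz : 0 ≤ (1 + sz z) ^ (-(N : ℝ)) := Real.rpow_nonneg (by linarith) _
  unfold sK
  calc ‖∑ n ∈ nK K, cK K 1 n * f (sc (fun j => (2 : ℝ) ^ n j) z)‖
      ≤ ∑ n ∈ nK K, ‖cK K 1 n‖ * (M * (((m : ℝ) + 1) ^ N * (1 + sz z) ^ (-(N : ℝ)))) := by
        refine (norm_sum_le _ _).trans (Finset.sum_le_sum fun n _ => ?_)
        rw [norm_mul]
        refine mul_le_mul_of_nonneg_left ?_ (norm_nonneg _)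
        refine (hf _).trans (mul_le_mul_of_nonneg_left ?_ hM)
        exact rps_one hS _ (fun j => one_le_pow₀ (by norm_num)) N z
    _ = (∑ n ∈ nK K, ‖cK K 1 n‖) * (((m : ℝ) + 1) ^ N * (M * (1 + sz z) ^ (-(N : ℝ)))) := by
        rw [Finset.sum_mul]
        exact Finset.sum_congr rfl fun n _ => by ring
    _ ≤ ((∑ n ∈ nK K, ‖cK K 1 n‖) + 1) * (((m : ℝ) + 1) ^ N * (M * (1 + sz z) ^ (-(N : ℝ)))) := by
        refine mul_le_mul_of_nonneg_right (by linarith) ?_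
        positivity
    _ = _ := by ring

end Pool.Agent.H17.GZ
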